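import Mathlib
import Pool.Agent.Helper303.HoCr

open MeasureTheory Set
open Pool.Agent.Helper303.Db Pool.Agent.Helper303.Ho

namespace Pool.Agent.Results.MP_7ebee3_an.NotClosed

/-- For every `n ≥ 3` there is a bounded pseudoconvex domain `Ω ⊂ ℂⁿ` with real-analytic boundary
such that for all `0 < α < β < 1/99` the operator `∂̄ : Λ^α(Ω̄) → Λ^β_{(0,1)}(Ω̄)` does not have
closed range. -/
theorem result : ∀ n : ℕ, 3 ≤ n → ∃ Ω : Set (Fin n → ℂ),
    IsOpen Ω ∧ IsConnected Ω ∧ Bornology.IsBounded Ω ∧ Pseudoconvex Ω ∧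
      RealAnalyticBoundary Ω ∧
      ∀ α β : ℝ, 0 < α → α < β → β < 1 / 99 → ¬ ClosedRange Ω α β := by
  intro n hn
  obtain ⟨m, rfl⟩ : ∃ m, n = m + 3 := ⟨n - 3, by omega⟩
  exact ⟨OmH m, isOpen_OmH, conn_OmH, bdd_OmH, psc_OmH, rab_OmH,
    fun α β h1 h2 h3 => not_closed m h1 h2 h3⟩

end Pool.Agent.Results.MP_7ebee3_an.NotClosed
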